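import Mathlib
import Pool.Agent.Helper498.NCR.Final

set_option autoImplicit false
open MeasureTheory

namespace Pool.Agent.Results.MP_cfac66_an.OneErgodic

/-- `T` has at most countably many ergodic components: the space is covered, up to a null set,
by countably many measurable sets `B i` such that `T` is (measure preserving and) ergodic for
the restriction of `μ` to `B i`.  If `T` is ergodic one may take `B i = Ω` for all `i`. -/
def CountablyManyErgodicComponents {Ω : Type} [MeasurableSpace Ω] (μ : Measure Ω)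
    (T : Ω → Ω) : Prop :=
  ∃ B : ℕ → Set Ω, (∀ i, MeasurableSet (B i)) ∧ (∀ i, Ergodic T (μ.restrict (B i))) ∧
    μ (⋃ i, B i)ᶜ = 0

/-- Sanity check: an ergodic transformation qualifies. -/
theorem of_ergodic {Ω : Type} [MeasurableSpace Ω] (μ : Measure Ω) (T : Ω → Ω)
    (h : Ergodic T μ) : CountablyManyErgodicComponents μ T :=
  ⟨fun _ => Set.univ, fun _ => MeasurableSet.univ, fun _ => by rwa [Measure.restrict_univ],
    by rw [Set.iUnion_const, Set.compl_univ, measure_empty]⟩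

end Pool.Agent.Results.MP_cfac66_an.OneErgodic

namespace Pool.Agent.Results.MP_cfac66_an.OneErgodic

open Pool.Agent.Helper498.NCR Filter

section forms

private lemma cf_m : CharForm (fun m _ => m) := fun l hl =>
  ⟨l, 1, hl, by simp, fun m n => by simp⟩

private lemma cf_mn : CharForm (fun m n => m + n) := fun l hl =>
  ⟨l, l, hl, hl, fun m n => by rw [pow_add]⟩

private lemma cf_m2n : CharForm (fun m n => m + 2 * n) := fun l hl =>
  ⟨l, l ^ 2, hl, by simp [hl], fun m n => by rw [pow_add, pow_mul]⟩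

private lemma ne_zero_of_norm {a : ℂ} (h : ‖a‖ = 1) : a ≠ 0 := fun h0 => by simp [h0] at h

private lemma abs1 (α β : ℂ) (hα : ‖α‖ = 1) (hβ : ‖β‖ = 1) : ∃ A B : ℂ, ‖A‖ = 1 ∧ ‖B‖ = 1 ∧
    ∀ m n : ℕ, α ^ m * β ^ n = A ^ (m + n) * B ^ (m + 2 * n) := by
  have h1 := ne_zero_of_norm hα
  have h2 := ne_zero_of_norm hβ
  refine ⟨α ^ 2 * β⁻¹, α⁻¹ * β, by simp [hα, hβ], by simp [hα, hβ], fun m n => ?_⟩
  have e1 : (α ^ 2 * β⁻¹) * (α⁻¹ * β) = α := by field_simp
  have e2 : (α ^ 2 * β⁻¹) * (α⁻¹ * β) ^ 2 = β := by field_simp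
  calc α ^ m * β ^ n = ((α ^ 2 * β⁻¹) * (α⁻¹ * β)) ^ m * ((α ^ 2 * β⁻¹) * (α⁻¹ * β) ^ 2) ^ n := by
        rw [e1, e2]
    _ = _ := by ring

private lemma abs2 (α β : ℂ) (hα : ‖α‖ = 1) (hβ : ‖β‖ = 1) : ∃ A B : ℂ, ‖A‖ = 1 ∧ ‖B‖ = 1 ∧
    ∀ m n : ℕ, α ^ m * β ^ n = A ^ (m + 2 * n) * B ^ m := by
  obtain ⟨c, hc⟩ := IsAlgClosed.exists_pow_nat_eq β (n := 2) (by norm_num)
  have hcn : ‖c‖ = 1 := by
    have : ‖c‖ ^ 2 = 1 := by rw [← norm_pow, hc, hβ]
    nlinarith [norm_nonneg c]
  have h1 := ne_zero_of_norm hcn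
  refine ⟨c, α * c⁻¹, hcn, by simp [hα, hcn], fun m n => ?_⟩
  have e1 : c * (α * c⁻¹) = α := by field_simp
  calc α ^ m * β ^ n = (c * (α * c⁻¹)) ^ m * (c ^ 2) ^ n := by rw [e1, hc]
    _ = _ := by ring

private lemma abs3 (α β : ℂ) (hα : ‖α‖ = 1) (hβ : ‖β‖ = 1) : ∃ A B : ℂ, ‖A‖ = 1 ∧ ‖B‖ = 1 ∧
    ∀ m n : ℕ, α ^ m * β ^ n = A ^ (m + n) * B ^ m := by
  have h1 := ne_zero_of_norm hβ
  refine ⟨β, α * β⁻¹, hβ, by simp [hα, hβ], fun m n => ?_⟩
  have e1 : β * (α * β⁻¹) = α := by field_simp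
  calc α ^ m * β ^ n = (β * (α * β⁻¹)) ^ m * β ^ n := by rw [e1]
    _ = _ := by ring

end forms

/-- **Multiple recurrence for three non-commuting transformations when at least one of them has
countably many ergodic components** (in particular, when at least one of them is ergodic). -/
theorem result :
    ∀ (Ω : Type) [MeasurableSpace Ω] (μ : Measure Ω) [IsProbabilityMeasure μ]
      (T S R : Ω ≃ᵐ Ω),
      MeasurePreserving T μ μ → MeasurePreserving S μ μ → MeasurePreserving R μ μ →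
      (CountablyManyErgodicComponents μ T ∨ CountablyManyErgodicComponents μ S ∨
        CountablyManyErgodicComponents μ R) →
      ∀ A : Set Ω, MeasurableSet A → μ A ≠ 0 →
        ∃ m n : ℕ, 1 ≤ m ∧ 1 ≤ n ∧
          μ (A ∩ (⇑T)^[m] ⁻¹' A ∩ (⇑S)^[m + n] ⁻¹' A ∩ (⇑R)^[m + 2 * n] ⁻¹' A) ≠ 0 := by
  intro Ω _ μ _ T S R hT hS hR hcomp A hA hμA
  rcases hcomp with ⟨B, hBm, hBe, hBc⟩ | ⟨B, hBm, hBe, hBc⟩ | ⟨B, hBm, hBe, hBc⟩
  · exact main_abs hT hS hR (fun m _ => m) (fun m n => m + n) (fun m n => m + 2 * n)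
      (fun g hg hg1 ho => control_fst hT hg hg1
        (ctrl_of_components hT B hBm hBe hBc hg hg1 ho 2 (by norm_num) le_rfl))
      abs1 cf_m cf_mn cf_m2n
      1 le_rfl (by norm_num)
      (fun J => ⟨fun j => 2 * j, fun j => J - j, J, 2 * J, 2 * J, by intros; (try simp only); (try omega),
        by intros; (try simp only); (try omega), by intros; (try simp only); (try omega)⟩)
      1 le_rfl (by norm_num)
      (fun J => ⟨fun j => J - j, fun j => j, J, J, J, by intros; (try simp only); (try omega),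
        by intros; (try simp only); (try omega), by intros; (try simp only); (try omega)⟩) hA hμA
  · obtain ⟨m, n, hm, hn, h⟩ := main_abs hS hR hT (fun m n => m + n) (fun m n => m + 2 * n)
      (fun m _ => m)
      (fun g hg hg1 ho => control_snd hS hg hg1
        (ctrl_of_components hS B hBm hBe hBc hg hg1 ho 1 le_rfl (by norm_num)))
      abs2 cf_mn cf_m2n cf_m
      2 (by norm_num) le_rfl
      (fun J => ⟨fun j => 0, fun j => j, 0, 0, J, by intros; (try simp only); (try omega),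
        by intros; (try simp only); (try omega), by intros; (try simp only); (try omega)⟩)
      2 (by norm_num) le_rfl
      (fun J => ⟨fun j => 2 * j, fun j => J - j, 0, 2 * J, 2 * J, by intros; (try simp only); (try omega),
        by intros; (try simp only); (try omega), by intros; (try simp only); (try omega)⟩) hA hμA
    refine ⟨m, n, hm, hn, fun h0 => h ?_⟩
    refine le_antisymm (le_trans (measure_mono ?_) h0.le) bot_le
    rintro x ⟨⟨⟨h1, h2⟩, h3⟩, h4⟩
    exact ⟨⟨⟨h1, h4⟩, h2⟩, h3⟩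
  · obtain ⟨m, n, hm, hn, h⟩ := main_abs hR hS hT (fun m n => m + 2 * n) (fun m n => m + n)
      (fun m _ => m)
      (fun g hg hg1 ho => control_thd hR hg hg1
        (ctrl_of_components hR B hBm hBe hBc hg hg1 ho 2 (by norm_num) le_rfl))
      abs3 cf_m2n cf_mn cf_m
      1 le_rfl (by norm_num)
      (fun J => ⟨fun j => 0, fun j => j, 0, 0, J, by intros; (try simp only); (try omega),
        by intros; (try simp only); (try omega), by intros; (try simp only); (try omega)⟩)
      1 le_rfl (by norm_num)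
      (fun J => ⟨fun j => j, fun j => J - j, 0, J, J, by intros; (try simp only); (try omega),
        by intros; (try simp only); (try omega), by intros; (try simp only); (try omega)⟩) hA hμA
    refine ⟨m, n, hm, hn, fun h0 => h ?_⟩
    refine le_antisymm (le_trans (measure_mono ?_) h0.le) bot_le
    rintro x ⟨⟨⟨h1, h2⟩, h3⟩, h4⟩
    exact ⟨⟨⟨h1, h4⟩, h3⟩, h2⟩

end Pool.Agent.Results.MP_cfac66_an.OneErgodic
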